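import Pool.Agent.H.MP_3d8b4c_al.Br

open Pool.Agent.H.MP_3d8b4c_al

namespace Pool.Agent.Results.MP_3d8b4c_al.FOne

/-- The commutator width of the derived subgroup of Thompson's group F is one. -/
theorem result :
    ∀ V F : Subgroup (Equiv.Perm ℝ),
      V = Subgroup.closure {σ : Equiv.Perm ℝ |
        (∀ x : ℝ, x ∉ Set.Ico (0:ℝ) 1 → σ x = x) ∧
        ∃ n : ℕ, ∃ a : ℕ → ℝ, ∃ k : ℕ → ℤ, ∃ c : ℕ → ℝ,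
          a 0 = 0 ∧ a n = 1 ∧ (∀ i < n, a i < a (i + 1)) ∧
          (∀ i ≤ n, ∃ m : ℤ, ∃ e : ℕ, a i = (m : ℝ) / 2 ^ e) ∧
          (∀ i < n, ∃ m : ℤ, ∃ e : ℕ, c i = (m : ℝ) / 2 ^ e) ∧
          ∀ i < n, ∀ x ∈ Set.Ico (a i) (a (i + 1)), σ x = (2:ℝ) ^ (k i) * x + c i} →
      F = Subgroup.closure {σ : Equiv.Perm ℝ |
        σ ∈ V ∧ StrictMonoOn (⇑σ) (Set.Ico (0:ℝ) 1)} →
      ⁅⁅F, F⁆, ⁅F, F⁆⁆ ≠ ⊥ ∧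
        ∀ g ∈ ⁅⁅F, F⁆, ⁅F, F⁆⁆, ∃ a ∈ ⁅F, F⁆, ∃ b ∈ ⁅F, F⁆, g = a * b * a⁻¹ * b⁻¹ := by
  intro V F hV hF
  obtain rfl : V = VG := hV.trans gen_eq
  rw [hF, F_eq]
  exact F_part

end Pool.Agent.Results.MP_3d8b4c_al.FOne
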