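import Pool.Agent.H.MP_3d8b4c_al.Br

open Pool.Agent.H.MP_3d8b4c_al

namespace Pool.Agent.Results.MP_3d8b4c_al.TTwo

/-- Every element of Thompson's group T is a product of two commutators. -/
theorem result :
    ∀ V T : Subgroup (Equiv.Perm ℝ),
      V = Subgroup.closure {σ : Equiv.Perm ℝ |
        (∀ x : ℝ, x ∉ Set.Ico (0:ℝ) 1 → σ x = x) ∧
        ∃ n : ℕ, ∃ a : ℕ → ℝ, ∃ k : ℕ → ℤ, ∃ c : ℕ → ℝ,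
          a 0 = 0 ∧ a n = 1 ∧ (∀ i < n, a i < a (i + 1)) ∧
          (∀ i ≤ n, ∃ m : ℤ, ∃ e : ℕ, a i = (m : ℝ) / 2 ^ e) ∧
          (∀ i < n, ∃ m : ℤ, ∃ e : ℕ, c i = (m : ℝ) / 2 ^ e) ∧
          ∀ i < n, ∀ x ∈ Set.Ico (a i) (a (i + 1)), σ x = (2:ℝ) ^ (k i) * x + c i} →
      T = Subgroup.closure {σ : Equiv.Perm ℝ |
        σ ∈ V ∧ ∃ t ∈ Set.Ico (0:ℝ) 1,
          ContinuousOn (⇑σ) (Set.Ico (0:ℝ) t) ∧ ContinuousOn (⇑σ) (Set.Ico t 1) ∧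
          StrictMonoOn (⇑σ) (Set.Ico (0:ℝ) t) ∧ StrictMonoOn (⇑σ) (Set.Ico t 1) ∧
          σ t = 0} →
      ∀ g ∈ T, ∃ a ∈ T, ∃ b ∈ T, ∃ c ∈ T, ∃ d ∈ T,
          g = (a * b * a⁻¹ * b⁻¹) * (c * d * c⁻¹ * d⁻¹) := by
  intro V T hV hT
  obtain rfl : V = VG := hV.trans gen_eq
  rw [hT, T_eq]
  exact T_two

end Pool.Agent.Results.MP_3d8b4c_al.TTwo
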